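import Pool.Agent.TH296.KQ.Main

/-!
# Polygons of two knot types and of their connected sum
-/

set_option autoImplicit false

namespace Pool.Agent.Results.MP_aea6d5_co.ConnectedSumInequality

open Filter Topology KN KN.KQ

/-- Connected sums of lattice knots exist (first part) and are unique (second part).  Third part:
if `s` is a connected sum of `k` and `l` then, for some `β` and some `c > 0`, the number of polygons
of length `n + m + 2 β` and type `s` is at least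
`c * (max n m ^ (2 / 3) + W n * W' m) * (min n m / (n + m)) * p n * p' m`, where `p, p'` count
polygons of the types `k, l` and `W, W'` are their mean extents in a coordinate direction; if the
asymptotic forms with exponents `α₁, α₂, α₃` hold with the same growth rate then
`α₃ ≥ α₁ + α₂ - 7 / 3`, and `α₃ ≥ α₁ + α₂ - 3 + ν + ν'` if the mean extents are at least of order
`n ^ ν, n ^ ν'`.  Fourth part: a class of knot types that is closed under connected sums satisfies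
the same inequality with `β = 0`, `pq n ≤ C n ^ (-2/3) g ^ n`, and `pq n ≤ C n ^ (-2 ν) g ^ n` if its mean
extent is at least of order `n ^ ν`; so its exponent is at most `7 / 3` and at most `3 - 2 ν`. -/
theorem result :
    (∀ k l : List V, (∃ w, SAP w ∧ Same (vl w) k) → (∃ w, SAP w ∧ Same (vl w) l) →
      ∃ w, SAP w ∧ IsSum k l (vl w)) ∧
    (∀ k l s s' : List V, IsSum k l s → IsSum k l s' → Same s s') ∧
    (∀ k l s : List V, IsSum k l s →
      (∃ (β N₀ : ℕ) (c : ℝ), 0 < c ∧ ∀ n m : ℕ, N₀ ≤ n → N₀ ≤ m →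
        c * (((max n m : ℕ) : ℝ) ^ (2 / 3 : ℝ) + mw (KT k) n * mw (KT l) m) *
          ((min n m : ℕ) / ((n : ℝ) + m)) * (pq (KT k) n * pq (KT l) m) ≤
            pq (KT s) (n + m + 2 * β)) ∧
      ∀ g A₁ A₂ A₃ α₁ α₂ α₃ : ℝ, 0 < g → 0 < A₁ → 0 < A₂ →
        Form (KT k) A₁ α₁ g → Form (KT l) A₂ α₂ g → Form (KT s) A₃ α₃ g →
        α₁ + α₂ - 7 / 3 ≤ α₃ ∧
          ∀ ν ν' : ℝ, Wide (KT k) ν → Wide (KT l) ν' → α₁ + α₂ - 3 + (ν + ν') ≤ α₃) ∧
    ∀ Q : List Dir → Prop, KClass Q → CSum Q → (∃ w, SAP w ∧ Q w) →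
      (∃ (N₀ : ℕ) (c : ℝ), 0 < c ∧ ∀ n m : ℕ, N₀ ≤ n → N₀ ≤ m →
        c * (((max n m : ℕ) : ℝ) ^ (2 / 3 : ℝ) + mw Q n * mw Q m) *
          ((min n m : ℕ) / ((n : ℝ) + m)) * (pq Q n * pq Q m) ≤ pq Q (n + m)) ∧
      (∃ C : ℝ, ∀ n : ℕ, 1 ≤ n → pq Q n ≤ C * (n : ℝ) ^ (-(2 / 3) : ℝ) * gr Q ^ n) ∧
      (∀ ν : ℝ, 0 ≤ ν → Wide Q ν →
        ∃ C : ℝ, ∀ n : ℕ, 1 ≤ n → pq Q n ≤ C * (n : ℝ) ^ (-(2 * ν)) * gr Q ^ n) ∧
      ∀ A α : ℝ, 0 < A → Form Q A α (gr Q) →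
        α ≤ 7 / 3 ∧ ∀ ν : ℝ, 0 ≤ ν → Wide Q ν → α ≤ 3 - 2 * ν := by
  refine ⟨fun k l hk hl => isSum_exists hk hl, fun k l s s' h h' => isSum_unique h h', ?_, ?_⟩
  · intro k l s h
    refine ⟨kt_ineq h, ?_⟩
    intro g A₁ A₂ A₃ α₁ α₂ α₃ hg h1 h2 f1 f2 f3
    exact expo_sum (kt_ineq h) g hg A₁ A₂ A₃ α₁ α₂ α₃ h1 h2 f1 f2 f3
  · intro Q hQ hc hne
    exact ⟨class_ineq' hQ hc hne, class_all hQ hc hne⟩

end Pool.Agent.Results.MP_aea6d5_co.ConnectedSumInequality
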