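import Pool.Agent.TH966.KS.Fin

/-!
# The rate of convergence of the ratios of consecutive numbers of unknotted lattice polygons
-/

set_option autoImplicit false

namespace Pool.Agent.Results.MP_aea6d5_co.RatioRate

open Filter Topology KN

/-- For the unknot, and more generally for every class `Q` of knot types which is closed under
connected sums, the ratio of the numbers of polygons of lengths `n + 2` and `n` differs from its
limit `gr Q ^ 2` by at most a constant multiple of `√((1 + |log (pq Q n / gr Q ^ n)|) / n)`. -/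
theorem result :
    (∀ Q : List Dir → Prop, KClass Q → (∃ w, SAP w ∧ Q w) → CSum Q →
      ∃ R : ℝ, ∀ᶠ k : ℕ in atTop, |pq Q (2 * k + 2) / pq Q (2 * k) - gr Q ^ 2| ≤
        R * √((1 + |Real.log (pq Q (2 * k) / gr Q ^ (2 * k))|) / (2 * k))) ∧
    ∃ R : ℝ, ∀ᶠ k : ℕ in atTop, |pq U (2 * k + 2) / pq U (2 * k) - gr U ^ 2| ≤
      R * √((1 + |Real.log (pq U (2 * k) / gr U ^ (2 * k))|) / (2 * k)) :=
  ⟨fun Q hQ hne hc => TH966.KS.rate_class Q hQ hne hc,
    TH966.KS.rate_class U (GEN.kt_class sq) ⟨sqw, c_sq.2.1, Or.inl (Same.refl _)⟩ GEN.u_csum⟩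

end Pool.Agent.Results.MP_aea6d5_co.RatioRate
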