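import Pool.Agent.TH966.KS.Kn

/-!
# The asymptotic form of the number of lattice knots along sparse lengths implies it for all lengths
-/

set_option autoImplicit false

namespace Pool.Agent.Results.MP_aea6d5_co.SparseLengths

open Filter Topology KN

/-- Let `Q` be a class of knot types (for instance one knot type) and `u j → ∞`.

* If the gaps `u (j + 1) - u j` are `o(√(u j))` and the asymptotic form with constants `A > 0` and
  `α` holds along the lengths `2 * u j`, then it holds along all even lengths.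
* If the gaps are `O(√(u j))` and the counts are between two constant multiples of
  `n ^ (α - 3) * gr Q ^ n` along the lengths `n = 2 * u j`, then this holds (with other constants)
  for all large even `n`.
* If the gaps are `o(√(u j * log (u j)))` and `log (pq Q n / gr Q ^ n) / log n` converges along the
  lengths `n = 2 * u j`, then it converges along all even lengths. -/
theorem result (Q : List Dir → Prop) (hQ : KClass Q) (hne : ∃ w, SAP w ∧ Q w) (u : ℕ → ℕ)
    (hu : Tendsto u atTop atTop) :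
    (Tendsto (fun j : ℕ => ((u (j + 1) : ℝ) - u j) / √(u j)) atTop (𝓝 0) →
      ∀ A α : ℝ, 0 < A →
      Tendsto (fun j : ℕ => pq Q (2 * u j) / ((2 * u j : ℝ) ^ (α - 3) * gr Q ^ (2 * u j))) atTop
        (𝓝 A) →
      Tendsto (fun k : ℕ => pq Q (2 * k) / ((2 * k : ℝ) ^ (α - 3) * gr Q ^ (2 * k))) atTop
        (𝓝 A)) ∧
    (∀ C : ℝ, (∀ᶠ j : ℕ in atTop, (u (j + 1) : ℝ) ≤ u j + C * √(u j)) →
      ∀ α c₁ c₂ : ℝ, 0 < c₁ →
      (∀ᶠ j : ℕ in atTop,
        c₁ ≤ pq Q (2 * u j) / ((2 * u j : ℝ) ^ (α - 3) * gr Q ^ (2 * u j)) ∧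
        pq Q (2 * u j) / ((2 * u j : ℝ) ^ (α - 3) * gr Q ^ (2 * u j)) ≤ c₂) →
      ∃ c₃ c₄ : ℝ, 0 < c₃ ∧ ∀ᶠ k : ℕ in atTop,
        c₃ ≤ pq Q (2 * k) / ((2 * k : ℝ) ^ (α - 3) * gr Q ^ (2 * k)) ∧
        pq Q (2 * k) / ((2 * k : ℝ) ^ (α - 3) * gr Q ^ (2 * k)) ≤ c₄) ∧
    (Tendsto (fun j : ℕ => ((u (j + 1) : ℝ) - u j) / √(u j * Real.log (u j))) atTop (𝓝 0) →
      ∀ β : ℝ,
      Tendsto (fun j : ℕ => Real.log (pq Q (2 * u j) / gr Q ^ (2 * u j)) /
        Real.log (2 * u j)) atTop (𝓝 β) →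
      Tendsto (fun k : ℕ => Real.log (pq Q (2 * k) / gr Q ^ (2 * k)) / Real.log (2 * k)) atTop
        (𝓝 β)) ∧
    ∀ k : List V, KClass (KT k) :=
  ⟨fun hgap A α hA h => TH966.KS.form Q hQ hne u hu hgap A (α - 3) hA h,
    fun C hgap α c₁ c₂ hc h => TH966.KS.bounds Q hQ hne u hu C hgap (α - 3) c₁ c₂ hc h,
    fun hgap β h => TH966.KS.expo Q hQ hne u hu hgap β h, GEN.kt_class⟩

end Pool.Agent.Results.MP_aea6d5_co.SparseLengths
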