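import Pool.Agent.TH945.KQ.FNOM

/-!
# Adding `N` summands to an arbitrary knot multiplies the number of polygons by `n ^ (2 N / 3)`
-/

set_option autoImplicit false

namespace Pool.Agent.Results.MP_aea6d5_co.SummandsOverKnot

open Filter Topology KN KN.KQ

/-- Let `K` be any knot type (the one of the polygon `w₀`) and let `L_0, ..., L_(N-1)` be knots whose
groups have homomorphisms to finite groups with non-cyclic images (`FNAG`; for example trefoils).

* The connected sum `l` of `K` and `L_0, ..., L_(N-1)` exists, and for some `c > 0` and `r` the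
  number of polygons of length `n + 2 r` of type `l` is at least `c n ^ (2 N / 3)` times the number
  of polygons of length `n` of type `K`, for all large even `n`. If the asymptotic form holds for
  `K` and `l` and the growth rates are equal, then the exponent of `l` is at least the exponent of
  `K` plus `2 N / 3`.
* More generally, let `Q` be a class of (oriented) knot types and `M` a number such that no knot of
  the class is a connected sum of a knot and `M` of the `L_i` (with repetitions). Then the same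
  inequality holds for the polygons of the class and those which are connected sums of a knot of the
  class and `L_0, ..., L_(N-1)`. This hypothesis holds with `M = 1` if, for some group `G`, all
  homomorphisms of the knot groups of the class to `G` have cyclic image and every `L_i` has one
  with an image that is not cyclic. -/
theorem result :
    (∃ w, SAP w ∧ FNAG (vl w)) ∧
    (∀ w₀ : List Dir, SAP w₀ → ∀ (ks : ℕ → List V) (N : ℕ), (∀ i < N, FNAG (ks i)) →
      (∀ i < N, ∃ w, SAP w ∧ Same (vl w) (ks i)) →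
      (∃ w, SAP w ∧ SumsC (Ty (vl w₀)) ks N (vl w)) ∧
      ∀ l : List V, SumsC (Ty (vl w₀)) ks N l →
      (∃ (c : ℝ) (r : ℕ), 0 < c ∧ ∀ᶠ j : ℕ in atTop,
        c * (2 * j : ℝ) ^ (2 * N / 3 : ℝ) * pq (KT (vl w₀)) (2 * j) ≤ pq (KT l) (2 * (j + r))) ∧
      ∀ A A' α α' : ℝ, 0 < A →
        Tendsto (fun j : ℕ => pq (KT (vl w₀)) (2 * j) /
          ((2 * j : ℝ) ^ (α - 3) * gr (KT (vl w₀)) ^ (2 * j))) atTop (𝓝 A) →
        Tendsto (fun j : ℕ => pq (KT l) (2 * j) /
          ((2 * j : ℝ) ^ (α' - 3) * gr (KT l) ^ (2 * j))) atTop (𝓝 A') →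
        gr (KT (vl w₀)) ≤ gr (KT l) ∧ (gr (KT (vl w₀)) = gr (KT l) → α + 2 * N / 3 ≤ α')) ∧
    (∀ Q : List V → Prop, TC Q → (∃ w, SAP w ∧ Q (vl w)) →
      ∀ (ks : ℕ → List V) (N : ℕ), (∀ i < N, ∃ w, SAP w ∧ Same (vl w) (ks i)) →
      ((∃ M : ℕ, NoM Q ks N M) ∨
        ∃ (G : Type) (_ : Group G), (∀ l, Q l → ¬ NAG G l) ∧ ∀ i < N, NAG G (ks i)) →
      (∃ w, SAP w ∧ SumsC Q ks N (vl w)) ∧
      ∃ (c : ℝ) (m : ℕ), 0 < c ∧ ∀ᶠ n : ℕ in atTop,
        c * (n : ℝ) ^ (2 * N / 3 : ℝ) * a (fun w => Q (vl w)) n ≤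
          a (fun w => SumsC Q ks N (vl w)) (n + 2 * m)) := by
  refine ⟨⟨_, fnag_tre⟩, fun w₀ hw₀ ks N hk hex => ?_, fun Q hQ hne ks N hex hno => ?_⟩
  · obtain ⟨M, hno⟩ := noM_finite hw₀ ks N hk
    refine ⟨sums_exist (Ty_TC _) ⟨w₀, hw₀, Same.refl _⟩ ks N hex, fun l hl =>
      ⟨single_main _ ks N M hno hex l hl, ?_⟩⟩
    intro A A' α α' hA h1 h2
    obtain ⟨c, r, hc, H⟩ := single_main _ ks N M hno hex l hl
    have hw : ∃ w, SAP w ∧ KT (vl w₀) w := ⟨w₀, hw₀, Or.inl (Same.refl _)⟩
    have hpos : 0 < gr (KT (vl w₀)) := by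
      have := (gr_bounds (KT (vl w₀)) (GEN.kt_class _) hw).1
      linarith
    have hne : ∃ w, SAP w ∧ KT l w := by
      have h3 := h1.eventually (lt_mem_nhds hA)
      have h4 := (h3.and (H.and (eventually_ge_atTop 1))).exists
      obtain ⟨j, hj1, hj2, hj3⟩ := h4
      have hj0 : (1 : ℝ) ≤ j := by exact_mod_cast hj3
      have h5 : 0 < pq (KT (vl w₀)) (2 * j) := by
        have h6 : 0 < (2 * j : ℝ) ^ (α - 3) * gr (KT (vl w₀)) ^ (2 * j) := by positivity
        rcases div_pos_iff.1 hj1 with h | h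
        · exact h.1
        · exact absurd h.2 (not_lt.2 h6.le)
      have h6 : 0 < pq (KT l) (2 * (j + r)) := by
        refine lt_of_lt_of_le ?_ hj2
        positivity
      unfold pq at h6
      have h7 : (0 : ℝ) < a (KT l) (2 * (j + r)) := by
        by_contra h8
        have h9 : (a (KT l) (2 * (j + r)) : ℝ) = 0 :=
          le_antisymm (not_lt.1 h8) (Nat.cast_nonneg _)
        rw [h9, zero_div] at h6
        exact lt_irrefl _ h6
      have h8 : 0 < a (KT l) (2 * (j + r)) := by exact_mod_cast h7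
      unfold a at h8
      obtain ⟨w, hw⟩ := Finset.card_pos.1 h8
      have h9 := mem_K.1 hw
      exact ⟨w, h9.2.1, h9.2.2⟩
    have hpos' : 0 < gr (KT l) := by
      have := (gr_bounds (KT l) (GEN.kt_class l) hne).1
      linarith
    exact exponents hc hA hpos hpos' H h1 h2
  · refine ⟨sums_exist hQ hne ks N hex, ?_⟩
    have hno' : ∃ M : ℕ, NoM Q ks N M := by
      rcases hno with h | ⟨G, _, h1, h2⟩
      · exact h
      · exact ⟨1, noM_of_cyclic h1 ks N h2⟩
    obtain ⟨M, hno⟩ := hno'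
    obtain ⟨c, m, hc, hm, h⟩ := class_main hQ ks N M hno hex
    obtain ⟨r, rfl⟩ : ∃ r, m = 2 * r := ⟨m / 2, by omega⟩
    exact ⟨c, r, hc, h⟩

end Pool.Agent.Results.MP_aea6d5_co.SummandsOverKnot
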